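import Mathlib

set_option autoImplicit false

/-! # Subgroups of small index of symmetric groups

A subgroup of index at most `2 ^ k` of the symmetric group of `n > 12 k + 16` points contains all
even permutations which fix a certain set of at most `3 k + 4` points pointwise. -/

namespace Pool.Agent.TH668.Act

open Equiv Finset

section

variable {Ω : Type} [DecidableEq Ω]

/-- the 3-cycle `a → b → c → a` -/
def T (a b c : Ω) : Perm Ω := swap a b * swap b c

lemma T_1 {a b c : Ω} (hab : a ≠ b) (hac : a ≠ c) : T a b c a = b := by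
  simp [T, swap_apply_of_ne_of_ne hab hac]

lemma T_2 {a b c : Ω} (hac : a ≠ c) (hbc : b ≠ c) : T a b c b = c := by
  simp [T, swap_apply_of_ne_of_ne hac.symm hbc.symm]

lemma T_3 {a b c : Ω} : T a b c c = a := by
  simp [T]

lemma T_o {a b c z : Ω} (ha : z ≠ a) (hb : z ≠ b) (hc : z ≠ c) : T a b c z = z := by
  simp [T, swap_apply_of_ne_of_ne hb hc, swap_apply_of_ne_of_ne ha hb]

lemma T_eq {a b c : Ω} (hab : a ≠ b) (hac : a ≠ c) (hbc : b ≠ c) {g : Perm Ω} (h1 : g a = b)
    (h2 : g b = c) (h3 : g c = a) (h4 : ∀ z, z ≠ a → z ≠ b → z ≠ c → g z = z) : g = T a b c := by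
  ext z
  by_cases e1 : z = a
  · subst e1; rw [h1, T_1 hab hac]
  by_cases e2 : z = b
  · subst e2; rw [h2, T_2 hac hbc]
  by_cases e3 : z = c
  · subst e3; rw [h3, T_3]
  rw [h4 z e1 e2 e3, T_o e1 e2 e3]

lemma T_rot {a b c : Ω} (hab : a ≠ b) (hac : a ≠ c) (hbc : b ≠ c) : T b c a = T a b c := by
  apply T_eq hab hac hbc
  · exact T_3
  · exact T_1 hbc hab.symm
  · exact T_2 hab.symm hac.symm
  · intro z h1 h2 h3
    exact T_o h2 h3 h1

lemma T_inv {a b c : Ω} (hab : a ≠ b) (hac : a ≠ c) (hbc : b ≠ c) : (T a b c)⁻¹ = T b a c := by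
  apply T_eq hab.symm hbc hac
  · rw [Perm.inv_eq_iff_eq, T_1 hab hac]
  · rw [Perm.inv_eq_iff_eq, T_3]
  · rw [Perm.inv_eq_iff_eq, T_2 hac hbc]
  · intro z h1 h2 h3
    rw [Perm.inv_eq_iff_eq, T_o h2 h1 h3]

lemma T_conj (g : Perm Ω) (a b c : Ω) : T (g a) (g b) (g c) = g * T a b c * g⁻¹ := by
  simp only [T, swap_apply_apply]
  group

/-- the 3-cycle relation -/
def R (G : Subgroup (Perm Ω)) (a b : Ω) : Prop :=
  a = b ∨ ∃ c, a ≠ b ∧ a ≠ c ∧ b ≠ c ∧ T a b c ∈ G

lemma tri {G : Subgroup (Perm Ω)} {a b c x y : Ω} (hab : a ≠ b) (hax : a ≠ x) (hbx : b ≠ x)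
    (hac : a ≠ c) (hay : a ≠ y) (hcy : c ≠ y) (hbc : b ≠ c) (h1 : T a b x ∈ G)
    (h2 : T a c y ∈ G) : T a b c ∈ G := by
  by_cases e1 : x = c
  · rwa [← e1]
  by_cases e2 : y = b
  · subst e2
    have := G.inv_mem h2
    rw [T_inv hac hay hcy, ← T_rot hac.symm hcy hay] at this
    exact this
  by_cases e3 : x = y
  · subst e3
    have := G.mul_mem (G.mul_mem h1 h2) (G.inv_mem h1)
    rw [← T_conj, T_1 hab hax, T_o hac.symm hbc.symm hcy, T_3, T_rot hab hac hbc] at this
    exact this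
  · have := G.mul_mem (G.mul_mem (G.mul_mem h1 h2) (G.inv_mem h1)) (G.inv_mem h2)
    rw [← T_conj, T_1 hab hax, T_o hac.symm hbc.symm (Ne.symm e1), T_o hay.symm e2 (Ne.symm e3),
      T_inv hac hay hcy] at this
    have e : T b c y * T c a y = T a b c := by
      have hyb : y ≠ b := e2
      apply T_eq hab hac hbc
      · rw [Perm.mul_apply, T_2 hcy hay, T_3]
      · rw [Perm.mul_apply, T_o hbc hab.symm hyb.symm, T_1 hbc hyb.symm]
      · rw [Perm.mul_apply, T_1 hac.symm hcy, T_o hab hac hay]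
      · intro z z1 z2 z3
        rw [Perm.mul_apply]
        by_cases hz : z = y
        · subst hz
          rw [T_3, T_2 hyb.symm hcy]
        · rw [T_o z3 z1 hz, T_o z2 z3 hz]
    rwa [e] at this

lemma R_refl (G : Subgroup (Perm Ω)) (a : Ω) : R G a a := Or.inl rfl

lemma R_symm {G : Subgroup (Perm Ω)} {a b : Ω} (h : R G a b) : R G b a := by
  rcases h with h | ⟨c, h1, h2, h3, h4⟩
  · exact Or.inl h.symm
  · refine Or.inr ⟨c, h1.symm, h3, h2, ?_⟩
    rw [← T_inv h1 h2 h3]
    exact G.inv_mem h4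

lemma R_mem {G : Subgroup (Perm Ω)} {a b c : Ω} (hab : a ≠ b) (hac : a ≠ c) (hbc : b ≠ c)
    (h1 : R G a b) (h2 : R G a c) : T a b c ∈ G := by
  rcases h1 with h1 | ⟨x, _, x2, x3, x4⟩
  · exact absurd h1 hab
  rcases h2 with h2 | ⟨y, _, y2, y3, y4⟩
  · exact absurd h2 hac
  exact tri hab x2 x3 hac y2 y3 hbc x4 y4

lemma R_trans {G : Subgroup (Perm Ω)} {a b c : Ω} (h1 : R G a b) (h2 : R G b c) : R G a c := by
  by_cases hab : a = b
  · subst hab; exact h2
  by_cases hbc : b = c
  · subst hbc; exact h1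
  by_cases hac : a = c
  · exact Or.inl hac
  have h := R_mem (Ne.symm hab) hbc hac (R_symm h1) h2
  refine Or.inr ⟨b, hac, hab, Ne.symm hbc, ?_⟩
  rwa [T_rot (Ne.symm hab) hbc hac]

lemma R_conj {G : Subgroup (Perm Ω)} {a b : Ω} {g : Perm Ω} (hg : g ∈ G) (h : R G a b) :
    R G (g a) (g b) := by
  rcases h with h | ⟨c, h1, h2, h3, h4⟩
  · exact Or.inl (by rw [h])
  · refine Or.inr ⟨g c, ?_, ?_, ?_, ?_⟩
    · exact fun e => h1 (g.injective e)
    · exact fun e => h2 (g.injective e)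
    · exact fun e => h3 (g.injective e)
    · rw [T_conj]
      exact G.mul_mem (G.mul_mem hg h4) (G.inv_mem hg)

end

lemma two_pow_lt_factorial (k : ℕ) : 2 ^ k < (k + 2).factorial := by
  induction k with
  | zero => decide
  | succ k ih =>
    rw [pow_succ, show k + 1 + 2 = (k + 2) + 1 by ring, Nat.factorial_succ]
    nlinarith

variable {Ω : Type} [Fintype Ω] [DecidableEq Ω]

/-- every set of `2 k + 4` points contains two different related points -/
lemma exists_R {G : Subgroup (Perm Ω)} {k : ℕ} (hG : G.index ≤ 2 ^ k) (S : Finset Ω)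
    (hS : 2 * (k + 2) ≤ S.card) : ∃ a ∈ S, ∃ b ∈ S, a ≠ b ∧ R G a b := by
  classical
  obtain ⟨S', hS', hcS⟩ := Finset.exists_subset_card_eq hS
  suffices h : ∃ a ∈ S', ∃ b ∈ S', a ≠ b ∧ R G a b by
    obtain ⟨a, ha, b, hb, h⟩ := h
    exact ⟨a, hS' ha, b, hS' hb, h⟩
  clear hS
  let P : Finset Ω → Prop := fun Δ => ∀ g ∈ G, (∀ z, z ∉ S' → g z = z) → (∀ z ∈ Δ, g z = z) → g = 1
  have hne : (S'.powerset.filter P).Nonempty := by
    refine ⟨S', ?_⟩
    rw [Finset.mem_filter, Finset.mem_powerset]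
    refine ⟨subset_rfl, fun g _ h1 h2 => ?_⟩
    ext z
    by_cases hz : z ∈ S'
    · rw [h2 z hz, Perm.one_apply]
    · rw [h1 z hz, Perm.one_apply]
  obtain ⟨Δ, hΔ, hmin⟩ := Finset.exists_min_image _ Finset.card hne
  rw [Finset.mem_filter, Finset.mem_powerset] at hΔ
  obtain ⟨hΔS, hΔP⟩ := hΔ
  have hmin' : ∀ E : Finset Ω, E ⊆ S' → E.card < Δ.card → ¬ P E := by
    intro E hE hc hP
    have := hmin E (by rw [Finset.mem_filter, Finset.mem_powerset]; exact ⟨hE, hP⟩)
    omega
  have hcd : (S' \ Δ).card = S'.card - Δ.card := Finset.card_sdiff_of_subset hΔS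
  have hcle : Δ.card ≤ S'.card := Finset.card_le_card hΔS
  by_cases hcase : Δ.card ≤ k + 2
  · exfalso
    let D := S' \ Δ
    have hD : k + 2 ≤ D.card := by
      change k + 2 ≤ (S' \ Δ).card
      omega
    have : Fintype (Perm Ω ⧸ G) := Fintype.ofFinite _
    have hcard : Fintype.card (Perm Ω ⧸ G) < Fintype.card (Perm {x // x ∈ D}) := by
      rw [← Nat.card_eq_fintype_card, Fintype.card_perm, Fintype.card_coe]
      have h1 : Nat.card (Perm Ω ⧸ G) = G.index := rfl
      have h2 := two_pow_lt_factorial k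
      have h3 := Nat.factorial_le hD
      omega
    obtain ⟨p, q, hpq, hpq2⟩ := Fintype.exists_ne_map_eq_of_card_lt
      (fun p : Perm {x // x ∈ D} => (QuotientGroup.mk (Perm.ofSubtype p) : Perm Ω ⧸ G)) hcard
    rw [QuotientGroup.eq] at hpq2
    have hfix : ∀ z, z ∉ D → ((Perm.ofSubtype p)⁻¹ * Perm.ofSubtype q) z = z := by
      intro z hz
      rw [Perm.mul_apply, Perm.ofSubtype_apply_of_not_mem q hz, Perm.inv_eq_iff_eq,
        Perm.ofSubtype_apply_of_not_mem p hz]
    have h1 := hΔP _ hpq2 (fun z hz => hfix z (fun h => hz (Finset.sdiff_subset h)))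
      (fun z hz => hfix z (fun h => (Finset.mem_sdiff.mp h).2 hz))
    rw [inv_mul_eq_one] at h1
    exact hpq (Perm.ofSubtype_injective h1)
  · push Not at hcase
    have hx := hmin' (S' \ Δ) Finset.sdiff_subset (by omega)
    simp only [P] at hx
    push Not at hx
    obtain ⟨x, hxG, hx1, hx2, hx3⟩ := hx
    have hxm : ∀ z, x z ≠ z → z ∈ Δ := by
      intro z hz
      by_contra hn
      by_cases hzS : z ∈ S'
      · exact hz (hx2 z (Finset.mem_sdiff.mpr ⟨hzS, hn⟩))
      · exact hz (hx1 z hzS)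
    obtain ⟨α, hα⟩ : ∃ α, x α ≠ α := by
      by_contra hn
      push Not at hn
      exact hx3 (Equiv.ext hn)
    have hαΔ := hxm α hα
    have hy := hmin' (Δ.erase α) ((Finset.erase_subset _ _).trans hΔS)
      (Finset.card_erase_lt_of_mem hαΔ)
    simp only [P] at hy
    push Not at hy
    obtain ⟨y, hyG, hy1, hy2, hy3⟩ := hy
    have hyα : y α ≠ α := by
      intro h
      apply hy3
      apply hΔP y hyG hy1
      intro z hz
      by_cases hzα : z = α
      · rw [hzα, h]
      · exact hy2 z (Finset.mem_erase.mpr ⟨hzα, hz⟩)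
    have hym : ∀ z, z ∈ Δ → z ≠ α → y z = z := fun z h1 h2 =>
      hy2 z (Finset.mem_erase.mpr ⟨h2, h1⟩)
    have hβα : x α ≠ α := hα
    have hxβ : x (x α) ≠ x α := fun h => hα (x.injective h)
    have hβΔ : x α ∈ Δ := hxm _ hxβ
    have hyγ : y (y α) ≠ y α := fun h => hyα (y.injective h)
    have hγΔ : y α ∉ Δ := fun h => hyγ (hym _ h hyα)
    have hβγ : x α ≠ y α := fun h => hγΔ (h ▸ hβΔ)
    have hxγ : x (y α) = y α := by
      by_contra h
      exact hγΔ (hxm _ h)
    have hyβ : y (x α) = x α := hym _ hβΔ hβα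
    have key : x * y = T α (x α) (y α) * (y * x) := by
      ext z
      rw [Perm.mul_apply, Perm.mul_apply, Perm.mul_apply]
      by_cases hzα : z = α
      · subst hzα
        rw [hxγ, hyβ, T_2 hyα.symm hβγ]
      by_cases hyz : y z = z
      · rw [hyz]
        by_cases hxz : x z = z
        · rw [hxz, hyz, T_o hzα]
          · intro h; rw [h] at hxz; exact hxβ hxz
          · intro h; rw [h] at hyz; exact hyγ hyz
        · have hvm : x (x z) ≠ x z := fun h => hxz (x.injective h)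
          have hvΔ := hxm _ hvm
          by_cases hv : x z = α
          · rw [hv, T_3]
          · rw [hym _ hvΔ hv, T_o hv]
            · intro h; exact hzα (x.injective h)
            · intro h; rw [h] at hvΔ; exact hγΔ hvΔ
      · have hzΔ : z ∉ Δ := fun h => hyz (hym z h hzα)
        have hxz : x z = z := by
          by_contra h
          exact hzΔ (hxm _ h)
        rw [hxz]
        by_cases hw : y z = α
        · rw [hw, T_1 hβα.symm hyα.symm]
        · have hwm : y (y z) ≠ y z := fun h => hyz (y.injective h)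
          have hwΔ : y z ∉ Δ := fun h => hwm (hym _ h hw)
          have hxw : x (y z) = y z := by
            by_contra h
            exact hwΔ (hxm _ h)
          rw [hxw, T_o hw]
          · intro h; rw [h] at hwΔ; exact hwΔ hβΔ
          · intro h; exact hzα (y.injective h)
    have hT : T α (x α) (y α) ∈ G := by
      have h1 : T α (x α) (y α) = x * y * (y * x)⁻¹ := by
        rw [key]; group
      rw [h1]
      exact G.mul_mem (G.mul_mem hxG hyG) (G.inv_mem (G.mul_mem hyG hxG))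
    exact ⟨α, hΔS hαΔ, x α, hΔS hβΔ, hβα.symm, Or.inr ⟨y α, hβα.symm, hyα.symm, hβγ, hT⟩⟩

end Pool.Agent.TH668.Act
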