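import Mathlib
import Pool.Agent.TH668.Act.Small

set_option autoImplicit false

/-! # Subgroups of small index of symmetric and alternating groups -/

namespace Pool.Agent.TH668.Act

open Equiv Finset

variable {Ω : Type} [Fintype Ω] [DecidableEq Ω]

lemma exists_transversal (G : Subgroup (Perm Ω)) : ∃ T0 : Finset Ω,
    (∀ a, ∃ t ∈ T0, R G a t) ∧ ∀ s ∈ T0, ∀ t ∈ T0, R G s t → s = t := by
  classical
  let r : Setoid Ω := ⟨R G, ⟨R_refl G, R_symm, R_trans⟩⟩
  have : Fintype (Quotient r) := Fintype.ofFinite _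
  refine ⟨Finset.univ.image (fun q : Quotient r => q.out), fun a => ?_, ?_⟩
  · refine ⟨(Quotient.mk r a).out, Finset.mem_image_of_mem _ (Finset.mem_univ _), ?_⟩
    exact R_symm (Quotient.exact (Quotient.out_eq (Quotient.mk r a)))
  · intro s hs t ht h
    obtain ⟨q, -, rfl⟩ := Finset.mem_image.mp hs
    obtain ⟨q', -, rfl⟩ := Finset.mem_image.mp ht
    have : Quotient.mk r q.out = Quotient.mk r q'.out := Quotient.sound h
    rw [Quotient.out_eq, Quotient.out_eq] at this
    rw [this]

/-- unions of classes -/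
def Sat (G : Subgroup (Perm Ω)) (A : Finset Ω) : Prop := ∀ a ∈ A, ∀ b, R G a b → b ∈ A

lemma two_pow_le_choose (u n : ℕ) (h : 2 * u ≤ n) : 2 ^ u ≤ n.choose u := by
  have h1 : 2 ^ u ≤ u.centralBinom := by
    clear h
    induction u with
    | zero => simp
    | succ u ih =>
      have h2 := Nat.succ_mul_centralBinom_succ u
      have h3 : 2 * (u + 1) * u.centralBinom ≤ (u + 1) * (u + 1).centralBinom := by
        rw [h2]
        apply Nat.mul_le_mul_right
        omega
      have h4 : 2 * u.centralBinom ≤ (u + 1).centralBinom := by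
        have : (u + 1) * (2 * u.centralBinom) ≤ (u + 1) * (u + 1).centralBinom := by linarith
        exact Nat.le_of_mul_le_mul_left this (Nat.succ_pos u)
      rw [pow_succ]
      linarith
  refine h1.trans ?_
  rw [Nat.centralBinom]
  exact Nat.choose_le_choose u h

lemma card_sat {G : Subgroup (Perm Ω)} (T0 : Finset Ω) (hT : ∀ a, ∃ t ∈ T0, R G a t)
    [DecidablePred (Sat G)] : (Finset.univ.filter (Sat G)).card ≤ 2 ^ T0.card := by
  classical
  rw [← Finset.card_powerset]
  apply Finset.card_le_card_of_injOn (fun A => A ∩ T0)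
  · intro A _
    exact Finset.mem_powerset.mpr Finset.inter_subset_right
  · intro A hA B hB hAB
    have hA' : Sat G A := by simpa using hA
    have hB' : Sat G B := by simpa using hB
    simp only at hAB
    ext z
    obtain ⟨t, ht, hzt⟩ := hT z
    have h1 : z ∈ A ↔ t ∈ A ∩ T0 := by
      rw [Finset.mem_inter]
      exact ⟨fun h => ⟨hA' z h t hzt, ht⟩, fun h => hA' t h.1 z (R_symm hzt)⟩
    have h2 : z ∈ B ↔ t ∈ B ∩ T0 := by
      rw [Finset.mem_inter]
      exact ⟨fun h => ⟨hB' z h t hzt, ht⟩, fun h => hB' t h.1 z (R_symm hzt)⟩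
    rw [h1, h2, hAB]

lemma exists_perm (U A : Finset Ω) (h : A.card = U.card) : ∃ g : Perm Ω,
    U.map g.toEmbedding = A := by
  classical
  have e : {x // x ∈ U} ≃ {x // x ∈ A} := Finset.equivOfCardEq h.symm
  refine ⟨e.extendSubtype, ?_⟩
  apply Finset.eq_of_subset_of_card_le
  · intro z hz
    obtain ⟨a, ha, rfl⟩ := Finset.mem_map.mp hz
    exact e.extendSubtype_mem a ha
  · rw [Finset.card_map, h]

lemma sat_map {G : Subgroup (Perm Ω)} {U : Finset Ω} (hU : Sat G U) {g : Perm Ω} (hg : g ∈ G) :
    Sat G (U.map g.toEmbedding) := by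
  intro a ha b hab
  obtain ⟨c, hc, rfl⟩ := Finset.mem_map.mp ha
  have h1 : R G (g⁻¹ (g c)) (g⁻¹ b) := R_conj (G.inv_mem hg) hab
  rw [show g⁻¹ (g c) = c from Perm.inv_eq_iff_eq.mpr rfl] at h1
  exact Finset.mem_map.mpr ⟨g⁻¹ b, hU c hc _ h1, by simp⟩

lemma choose_le {G : Subgroup (Perm Ω)} {U : Finset Ω} (hU : Sat G U)
    [DecidablePred (Sat G)] :
    (Fintype.card Ω).choose U.card ≤ G.index * (Finset.univ.filter (Sat G)).card := by
  classical
  have : Fintype (Perm Ω ⧸ G) := Fintype.ofFinite _
  have hidx : G.index = (Finset.univ : Finset (Perm Ω ⧸ G)).card := by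
    rw [Finset.card_univ, ← Nat.card_eq_fintype_card]; rfl
  rw [hidx, ← Finset.card_product, ← Finset.card_univ (α := Ω), ← Finset.card_powersetCard]
  choose! g hg using exists_perm U
  apply Finset.card_le_card_of_injOn (fun A => ((QuotientGroup.mk (g A) : Perm Ω ⧸ G),
    A.map ((QuotientGroup.mk (g A) : Perm Ω ⧸ G).out)⁻¹.toEmbedding))
  · intro A hA
    have hA' : A.card = U.card := (Finset.mem_powersetCard.mp hA).2
    rw [Finset.mem_coe, Finset.mem_product, Finset.mem_filter]
    refine ⟨Finset.mem_univ _, Finset.mem_univ _, ?_⟩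
    simp only
    have h1 : ((QuotientGroup.mk (g A) : Perm Ω ⧸ G).out)⁻¹ * g A ∈ G := by
      rw [← QuotientGroup.eq, QuotientGroup.out_eq']
    have h2 := sat_map hU h1
    have h3 : U.map (((QuotientGroup.mk (g A) : Perm Ω ⧸ G).out)⁻¹ * g A).toEmbedding =
        A.map ((QuotientGroup.mk (g A) : Perm Ω ⧸ G).out)⁻¹.toEmbedding := by
      have h4 : U.map (((QuotientGroup.mk (g A) : Perm Ω ⧸ G).out)⁻¹ * g A).toEmbedding =
          (U.map (g A).toEmbedding).map
            ((QuotientGroup.mk (g A) : Perm Ω ⧸ G).out)⁻¹.toEmbedding := by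
        rw [Finset.map_map]
        congr 1
      rw [h4, hg A hA']
    rw [← h3]
    exact h2
  · intro A hA B hB hAB
    have h1 := congrArg Prod.fst hAB
    have h2 := congrArg Prod.snd hAB
    simp only at h1 h2
    rw [← h1] at h2
    exact Finset.map_injective _ h2

/-- **Structure of subgroups of small index.** -/
lemma structure_thm {G : Subgroup (Perm Ω)} {k : ℕ} (hG : G.index ≤ 2 ^ k)
    (hn : 4 * (3 * k + 3) < Fintype.card Ω) :
    ∃ U : Finset Ω, U.card ≤ 3 * k + 3 ∧ ∀ a, a ∉ U → ∀ b, b ∉ U → R G a b := by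
  classical
  obtain ⟨T0, hT1, hT2⟩ := exists_transversal G
  have hT0 : T0.card < 2 * (k + 2) := by
    by_contra h
    push Not at h
    obtain ⟨a, ha, b, hb, hab, hR⟩ := exists_R hG T0 h
    exact hab (hT2 a ha b hb hR)
  have hsmall : ∀ U : Finset Ω, Sat G U → 2 * U.card ≤ Fintype.card Ω → U.card ≤ 3 * k + 3 := by
    intro U hU h2
    have h3 := two_pow_le_choose U.card (Fintype.card Ω) h2
    have h4 := choose_le hU
    have h5 := card_sat T0 hT1
    have h6 : 2 ^ U.card ≤ 2 ^ (k + (2 * k + 3)) := by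
      calc 2 ^ U.card ≤ G.index * (Finset.univ.filter (Sat G)).card := h3.trans h4
        _ ≤ 2 ^ k * 2 ^ T0.card := Nat.mul_le_mul hG h5
        _ ≤ 2 ^ k * 2 ^ (2 * k + 3) := by
          apply Nat.mul_le_mul_left
          exact Nat.pow_le_pow_right (by norm_num) (by omega)
        _ = _ := by rw [← pow_add]
    have := (Nat.pow_le_pow_iff_right (by norm_num : 1 < 2)).mp h6
    omega
  -- a largest small union of classes
  have hne : (Finset.univ.filter fun U : Finset Ω => Sat G U ∧
      2 * U.card ≤ Fintype.card Ω).Nonempty := by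
    refine ⟨∅, ?_⟩
    rw [Finset.mem_filter]
    exact ⟨Finset.mem_univ _, fun a ha => absurd ha (Finset.notMem_empty a), by simp⟩
  obtain ⟨U, hU, hmax⟩ := Finset.exists_max_image _ Finset.card hne
  rw [Finset.mem_filter] at hU
  obtain ⟨-, hUs, hUc⟩ := hU
  have hUm := hsmall U hUs hUc
  have hcl : ∀ a, a ∉ U → Fintype.card Ω < 2 * (Finset.univ.filter (R G a)).card := by
    intro a ha
    have hCs : Sat G (Finset.univ.filter (R G a)) := by
      intro b hb c hbc
      rw [Finset.mem_filter] at hb ⊢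
      exact ⟨Finset.mem_univ _, R_trans hb.2 hbc⟩
    have hUC : Sat G (U ∪ Finset.univ.filter (R G a)) := by
      intro b hb c hbc
      rw [Finset.mem_union] at hb ⊢
      exact hb.imp (fun h => hUs b h c hbc) (fun h => hCs b h c hbc)
    have haC : a ∈ Finset.univ.filter (R G a) := by
      rw [Finset.mem_filter]; exact ⟨Finset.mem_univ _, R_refl G a⟩
    have hlt : U.card < (U ∪ Finset.univ.filter (R G a)).card := by
      apply Finset.card_lt_card
      rw [Finset.ssubset_iff_of_subset Finset.subset_union_left]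
      exact ⟨a, Finset.mem_union_right _ haC, ha⟩
    have hbig : Fintype.card Ω < 2 * (U ∪ Finset.univ.filter (R G a)).card := by
      by_contra h
      push Not at h
      have := hmax (U ∪ Finset.univ.filter (R G a))
        (by rw [Finset.mem_filter]; exact ⟨Finset.mem_univ _, hUC, h⟩)
      omega
    have hle := Finset.card_union_le U (Finset.univ.filter (R G a))
    by_contra h
    push Not at h
    have := hsmall _ hCs h
    omega
  refine ⟨U, hUm, fun a ha b hb => ?_⟩
  have h1 := hcl a ha
  have h2 := hcl b hb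
  by_contra hab
  have hdis : Disjoint (Finset.univ.filter (R G a)) (Finset.univ.filter (R G b)) := by
    rw [Finset.disjoint_left]
    intro z hz1 hz2
    rw [Finset.mem_filter] at hz1 hz2
    exact hab (R_trans hz1.2 (R_symm hz2.2))
  have h3 := Finset.card_union_of_disjoint hdis
  have h4 := Finset.card_le_univ (Finset.univ.filter (R G a) ∪ Finset.univ.filter (R G b))
  omega

/-- **Even permutations in subgroups of small index.** -/
theorem even_mem {G : Subgroup (Perm Ω)} {k : ℕ} (hG : G.index ≤ 2 ^ k)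
    (hn : 4 * (3 * k + 3) < Fintype.card Ω) :
    ∃ U : Finset Ω, U.card ≤ 3 * k + 3 ∧
      ∀ g : Perm Ω, g ∈ alternatingGroup Ω → (∀ a ∈ U, g a = a) → g ∈ G := by
  classical
  obtain ⟨U, hU, hR⟩ := structure_thm hG hn
  refine ⟨U, hU, fun g hg hfix => ?_⟩
  have hmem : ∀ x, g x ∉ U ↔ x ∉ U := by
    intro x
    constructor
    · intro h hx
      rw [hfix x hx] at h
      exact h hx
    · intro h hx
      have := hfix _ hx
      exact h ((g.injective this) ▸ hx)
  have hne : ∀ x, g x ≠ x → x ∉ U := fun x h1 h2 => h1 (hfix x h2)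
  have hs := Perm.ofSubtype_subtypePerm hmem hne
  have hsign : g.subtypePerm hmem ∈ alternatingGroup {x // x ∉ U} := by
    rw [Perm.mem_alternatingGroup] at hg ⊢
    rw [← Perm.sign_ofSubtype, hs]
    exact hg
  rw [← Perm.closure_three_cycles_eq_alternating] at hsign
  have hle : Subgroup.closure {σ : Perm {x // x ∉ U} | σ.IsThreeCycle} ≤
      G.comap (Perm.ofSubtype (p := fun x => x ∉ U)) := by
    rw [Subgroup.closure_le]
    intro σ hσ
    rw [SetLike.mem_coe, Subgroup.mem_comap]
    have hσ' : σ.IsThreeCycle := hσ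
    obtain ⟨a, ha⟩ : ∃ a, a ∈ σ.support := by
      have h3 := hσ'.card_support
      have : σ.support.Nonempty := by
        rw [← Finset.card_pos]; omega
      exact this
    have h1 := hσ'.eq_swap_mul_swap_iff_mem_support.mpr ha
    have hab : a ≠ σ a := fun h => (Perm.mem_support.mp ha) h.symm
    have hbc : σ a ≠ σ (σ a) := fun h => hab (σ.injective h)
    have hac : a ≠ σ (σ a) := by
      intro h
      have h4 : σ (σ (σ a)) = a := by
        have := hσ'.orderOf
        have h5 : σ ^ 3 = 1 := by rw [← this]; exact pow_orderOf_eq_one σ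
        have h6 := congrArg (fun τ : Perm {x // x ∉ U} => τ a) h5
        simpa [pow_succ] using h6
      rw [← h] at h4
      exact hab h4.symm
    have h2 : Perm.ofSubtype σ = T (a : Ω) (σ a : Ω) (σ (σ a) : Ω) := by
      rw [h1]
      rw [map_mul, Perm.ofSubtype_swap_eq, Perm.ofSubtype_swap_eq, ← h1]
      rfl
    rw [h2]
    have hne' : ∀ {u v : {x // x ∉ U}}, u ≠ v → (u : Ω) ≠ (v : Ω) := fun h h' =>
      h (Subtype.ext h')
    exact R_mem (hne' hab) (hne' hac) (hne' hbc) (hR _ a.2 _ (σ a).2) (hR _ a.2 _ (σ (σ a)).2)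
  have := hle hsign
  rw [Subgroup.mem_comap, hs] at this
  exact this

end Pool.Agent.TH668.Act
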