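import Mathlib
import Pool.Agent.TH668.Act.Str
import Pool.Agent.H14R2.RC.Defs

set_option autoImplicit false

/-! # From levels to all subgroups of small index and all actions of small degree -/

namespace Pool.Agent.TH668.Act

open Equiv Finset RC14 Filter Topology

/-- the averaging operator of the Schreier graph of an action of a group `G` on `X`:
`(P φ)(a) = (1/2k) ∑_i (φ(x_i a) + φ(x_i⁻¹ a))` -/
noncomputable def actWalk {G : Type} [Group G] {X : Type} [MulAction G X] {k : ℕ} (x : Fin k → G)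
    (φ : X → ℝ) (a : X) : ℝ :=
  (∑ i, (φ (x i • a) + φ ((x i)⁻¹ • a))) / (2 * k)

/-- sums over a group and sums over a transitive action -/
lemma sum_action {G X : Type} [Group G] [Fintype G] [Fintype X] [MulAction G X]
    [MulAction.IsPretransitive G X] (x0 : X) : ∃ N : ℝ, 0 < N ∧ ∀ ψ : X → ℝ,
    ∑ g : G, ψ (g⁻¹ • x0) = N * ∑ a, ψ a := by
  classical
  refine ⟨((Finset.univ.filter fun g : G => g • x0 = x0).card : ℝ), ?_, fun ψ => ?_⟩
  · have : 0 < (Finset.univ.filter fun g : G => g • x0 = x0).card := by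
      rw [Finset.card_pos]
      exact ⟨1, by rw [Finset.mem_filter]; exact ⟨Finset.mem_univ _, one_smul _ _⟩⟩
    exact_mod_cast this
  · have h1 : ∑ g : G, ψ (g⁻¹ • x0) = ∑ g : G, ψ (g • x0) :=
      _root_.Equiv.sum_comp (Equiv.inv G) (fun g => ψ (g • x0))
    rw [h1, ← Finset.sum_fiberwise Finset.univ (fun g : G => g • x0), Finset.mul_sum]
    refine Finset.sum_congr rfl fun a _ => ?_
    have h2 : ∑ g ∈ Finset.univ.filter (fun g : G => g • x0 = a), ψ (g • x0) =
        ∑ g ∈ Finset.univ.filter (fun g : G => g • x0 = a), ψ a := by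
      refine Finset.sum_congr rfl fun g hg => ?_
      rw [(Finset.mem_filter.mp hg).2]
    rw [h2, Finset.sum_const, nsmul_eq_mul]
    congr 2
    obtain ⟨g0, hg0⟩ := MulAction.exists_smul_eq G x0 a
    refine Finset.card_nbij' (fun g => g0⁻¹ * g) (fun g => g0 * g) ?_ ?_ ?_ ?_
    · intro g hg
      rw [Finset.mem_coe, Finset.mem_filter] at hg ⊢
      refine ⟨Finset.mem_univ _, ?_⟩
      rw [mul_smul, hg.2, ← hg0, inv_smul_smul]
    · intro g hg
      rw [Finset.mem_coe, Finset.mem_filter] at hg ⊢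
      refine ⟨Finset.mem_univ _, ?_⟩
      rw [mul_smul, hg.2, hg0]
    · intro g _; simp
    · intro g _; simp

/-- the span of the real functions on `A_n` which are invariant under left multiplication by a
subgroup of index at most `D` -/
def indexSpan (n : ℕ) (D : ℝ) : Submodule ℝ (Alt n → ℝ) :=
  Submodule.span ℝ {f | ∃ H : Subgroup (Alt n), (H.index : ℝ) ≤ D ∧
    ∀ h ∈ H, ∀ g : Alt n, f (h * g) = f g}

lemma index_map {n : ℕ} (hn : 2 ≤ n) (H : Subgroup (Alt n)) :
    (H.map (alternatingGroup (Fin n)).subtype).index = H.index * 2 := by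
  have : Nontrivial (Fin n) := Fin.nontrivial_iff_two_le.mpr hn
  rw [Subgroup.index_map_subtype, alternatingGroup.index_eq_two]

/-- functions invariant under subgroups of small index have low level -/
lemma indexSpan_le {n k m : ℕ} {D : ℝ} (hD : 2 * D ≤ 2 ^ k) (hkm : 3 * k + 3 ≤ m)
    (hn : 4 * (3 * k + 3) < n) : indexSpan n D ≤ lowLevel n m := by
  apply Submodule.span_le.mpr
  rintro f ⟨H, hH, hf⟩
  apply Submodule.subset_span
  have hidx : (H.map (alternatingGroup (Fin n)).subtype).index ≤ 2 ^ k := by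
    rw [index_map (by omega)]
    have : ((H.index * 2 : ℕ) : ℝ) ≤ ((2 ^ k : ℕ) : ℝ) := by
      push_cast; linarith
    exact_mod_cast this
  obtain ⟨U, hU, hmem⟩ := even_mem (Ω := Fin n) hidx (by rw [Fintype.card_fin]; exact hn)
  refine ⟨U, hU.trans hkm, fun h g hfix => hf h ?_ g⟩
  have h1 := hmem (h : Perm (Fin n)) h.2 hfix
  obtain ⟨h', hh', e⟩ := Subgroup.mem_map.mp h1
  have : h' = h := Subtype.ext e
  rwa [← this]

/-- the gap for functions of low level gives the gap for transitive actions -/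
lemma gap_action {n k : ℕ} {D ε : ℝ} (x : Fin k → Alt n)
    (hgap : ∀ f ∈ indexSpan n D, ∑ g, f g = 0 →
      ∑ g, f g * walk x f g ≤ (1 - ε) * ∑ g, f g ^ 2)
    (X : Type) [Fintype X] [MulAction (Alt n) X] [MulAction.IsPretransitive (Alt n) X]
    (hX : (Fintype.card X : ℝ) ≤ D) (φ : X → ℝ) (h0 : ∑ a, φ a = 0) :
    ∑ a, φ a * actWalk x φ a ≤ (1 - ε) * ∑ a, φ a ^ 2 := by
  classical
  rcases isEmpty_or_nonempty X with hE | ⟨⟨x0⟩⟩
  · simp
  obtain ⟨N, hN, hsum⟩ := sum_action (G := Alt n) x0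
  have hF : (fun g : Alt n => φ (g⁻¹ • x0)) ∈ indexSpan n D := by
    apply Submodule.subset_span
    refine ⟨MulAction.stabilizer (Alt n) x0, ?_, fun h hh g => ?_⟩
    · rw [MulAction.index_stabilizer_of_transitive, Nat.card_eq_fintype_card]
      exact hX
    · have h1 : h⁻¹ • x0 = x0 := by
        rw [inv_smul_eq_iff]; exact (MulAction.mem_stabilizer_iff.mp hh).symm
      simp only [mul_inv_rev, mul_smul, h1]
  have h1 := hgap _ hF (by rw [hsum, h0, mul_zero])
  have h2 : ∀ g : Alt n, walk x (fun g : Alt n => φ (g⁻¹ • x0)) g = actWalk x φ (g⁻¹ • x0) := by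
    intro g
    unfold walk actWalk
    congr 1
    refine Finset.sum_congr rfl fun i _ => ?_
    simp only [mul_inv_rev, mul_smul, inv_inv]
    rw [add_comm]
  simp only [h2] at h1
  rw [hsum (fun a => φ a * actWalk x φ a), hsum (fun a => φ a ^ 2)] at h1
  have h3 : N * ∑ a, φ a * actWalk x φ a ≤ N * ((1 - ε) * ∑ a, φ a ^ 2) := by
    calc _ ≤ _ := h1
      _ = _ := by ring
  exact le_of_mul_le_mul_left h3 hN

end Pool.Agent.TH668.Act
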